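import Mathlib
import Pool.Agent.V11216.NullFiniteCore

/-!
# MP_def4bf_gt : the σ-ideal generated by Borel null-finite sets differs from the ideal of
Haar-null Haar-meager sets
-/

namespace Pool.Agent.Results.MP_def4bf_gt.Counterexample

open Set Filter Topology Pool.Agent.V11216.NullFiniteCore

/-- There is a (compact) Polish abelian group `X`, written multiplicatively, and a closed subset
`F` of `X` which is Haar-null and Haar-meager, but is not covered by countably many Borel
null-finite subsets of `X`. -/
theorem result : ∃ (X : Type) (_ : CommGroup X) (_ : TopologicalSpace X),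
    IsTopologicalGroup X ∧ PolishSpace X ∧ CompactSpace X ∧
    ∃ F : Set X, IsClosed F ∧ IsBorel F ∧ HaarNull F ∧ HaarMeager F ∧
      ∀ B : ℕ → Set X, (∀ i, IsBorel (B i)) → (∀ i, NullFinite (B i)) → ¬ F ⊆ ⋃ i, B i := by
  refine ⟨∀ n, C n, inferInstance, inferInstance, inferInstance, inferInstance, inferInstance,
    A, isClosed_A, ?_, haarNull_A, haarMeager_A, A_not_covered⟩
  let _ : MeasurableSpace (∀ n, C n) := borel _
  have _ : BorelSpace (∀ n, C n) := ⟨rfl⟩
  exact isClosed_A.measurableSet

end Pool.Agent.Results.MP_def4bf_gt.Counterexample
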